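import Pool.Agent.H58.FL.TargetsB
import Pool.Agent.H48.FR.AB
import Pool.Agent.H33.FR.TH
import Pool.Agent.H48.FR.CP

/-!
MP_6a7a6f_gt, row FAM of the board flc_modules: the abstract contraction in a family of isometric
embeddings.
-/

namespace Pool.Agent.H74.FL

open Pool.Agent.H58.FL Pool.Agent.H59 Pool.Agent.H48.FR Pool.Agent.H48.FRAB
open Filter Topology
open scoped ENNReal

set_option linter.unusedSectionVars false

noncomputable section

namespace FAM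

variable {M S Q : Type} [MetricSpace M] [TopologicalSpace S] [TopologicalSpace Q]

/-- the distance to the Kuratowski image -/
lemma mem_pt [CompactSpace Q] [Nonempty Q] (Δ : Dat M S Q) {D : ℝ}
    (hD : ∀ x y : M, dist x y ≤ D) {K : ℝ} (hK : QC Δ K) (X : S) (t : ℝ) :
    ∃ j₀, hgt Δ D K X t j₀ = 0 ∧
      ∀ j, dist (atm Δ X j) (atm Δ X j₀) ≤ hgt Δ D K X t j + Δ.r := by
  have hr := Δ.r_pos
  have hD0 : 0 ≤ D := dist_nonneg.trans (hD Δ.p Δ.p)
  have hρD : rh Δ X ≤ D := hD _ _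
  -- the case of the base point
  have V2 : hb D Δ.r (rh Δ X) t = 0 → (rh Δ X ≤ Δ.r ∨ ha D t = D) →
      ∃ j₀, hgt Δ D K X t j₀ = 0 ∧
        ∀ j, dist (atm Δ X j) (atm Δ X j₀) ≤ hgt Δ D K X t j + Δ.r := by
    intro hb0 hcase
    refine ⟨some none, hb0, ?_⟩
    intro j
    rcases j with _ | _ | q
    · change dist (Δ.π X) Δ.p ≤ ha D t + Δ.r
      rw [dist_comm]
      rcases hcase with h | h
      · have h' : dist Δ.p (Δ.π X) ≤ Δ.r := h
        linarith [ha_nonneg hD0 t]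
      · rw [h]
        have h' : dist Δ.p (Δ.π X) ≤ D := hρD
        linarith
    · change dist Δ.p Δ.p ≤ hb D Δ.r (rh Δ X) t + Δ.r
      rw [dist_self]
      linarith [hb_nonneg hD0 Δ.r (rh Δ X) t]
    · exact ring_p Δ hD K X t q
  by_cases c1 : 5 * t ≤ 1
  · -- the case of the point itself
    refine ⟨none, ?_, ?_⟩
    · change ha D t = 0
      unfold ha; rw [cl_zero c1, mul_zero]
    intro j
    rcases j with _ | _ | q
    · change dist (Δ.π X) (Δ.π X) ≤ ha D t + Δ.r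
      rw [dist_self]
      linarith [ha_nonneg hD0 t]
    · change rh Δ X ≤ hb D Δ.r (rh Δ X) t + Δ.r
      unfold hb
      rw [cl_zero (i := 3) (by linarith), sub_zero, mul_one]
      have e1 := cl_nonneg 0 t
      have e2 := cl_le_one 0 t
      have e3 : rh Δ X - Δ.r ≤ max (rh Δ X - Δ.r) 0 := le_max_left _ _
      have e4 := mul_le_mul_of_nonneg_right e3 e1
      have e5 : (rh Δ X - Δ.r) * (1 - cl 0 t) ≤ D * (1 - cl 0 t) :=
        mul_le_mul_of_nonneg_right (by linarith) (by linarith)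
      nlinarith
    · change dist (Δ.y X q) (Δ.π X) ≤
        max (hw D Δ.r (rh Δ X) t) (K * (mx Δ X (sp Δ X t) - Δ.F X (sp Δ X t) q)) + Δ.r
      rw [dist_comm]
      by_cases c2 : Δ.r / 4 ≤ rh Δ X
      · have hs : sp Δ X t = Δ.σ (dist Δ.p (Δ.π X)) := by
          unfold sp; rw [cl_zero (i := 2) (by linarith), mul_zero, add_zero]; rfl
        obtain ⟨q₀, hq₀⟩ := exists_mx Δ (ne_of_rh c2) (Δ.σ (dist Δ.p (Δ.π X)))
        have h3 := (hK X c2).1 q₀ q hq₀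
        rw [hs, mx_eq hq₀]
        have h4 := le_max_right (hw D Δ.r (rh Δ X) t)
          (K * (Δ.F X (Δ.σ (dist Δ.p (Δ.π X))) q₀ - Δ.F X (Δ.σ (dist Δ.p (Δ.π X))) q))
        linarith
      · have h2 : hw D Δ.r (rh Δ X) t = D := by
          unfold hw; rw [ta_zero hr (le_of_not_ge c2)]; ring
        have h4 := le_max_left (hw D Δ.r (rh Δ X) t)
          (K * (mx Δ X (sp Δ X t) - Δ.F X (sp Δ X t) q))
        have h5 := hD (Δ.π X) (Δ.y X q)
        linarith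
  have e0 : cl 0 t = 1 := cl_one (by linarith)
  by_cases c2 : 4 ≤ 5 * t
  · refine V2 ?_ (Or.inr ?_)
    · unfold hb; rw [e0, cl_one (i := 3) (by linarith)]; ring
    · unfold ha; rw [cl_one (i := 1) (by linarith), mul_one]
  by_cases c3 : rh Δ X ≤ Δ.r
  · refine V2 ?_ (Or.inl c3)
    unfold hb; rw [e0, max_eq_right (by linarith)]; ring
  -- the case of the ring
  have c4 : Δ.r / 4 ≤ rh Δ X := by linarith
  obtain ⟨q₀, hq₀⟩ := exists_mx Δ (ne_of_rh c4) (sp Δ X t)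
  have hw0 : hw D Δ.r (rh Δ X) t = 0 := by
    unfold hw; rw [e0, ta_one hr (by linarith), cl_zero (i := 4) (by linarith)]; ring
  refine ⟨some (some q₀), ?_, ?_⟩
  · change max (hw D Δ.r (rh Δ X) t) (K * (mx Δ X (sp Δ X t) - Δ.F X (sp Δ X t) q₀)) = 0
    rw [hw0, mx_eq hq₀, sub_self, mul_zero, max_self]
  intro j
  rcases j with _ | _ | q
  · change dist (Δ.π X) (Δ.y X q₀) ≤ ha D t + Δ.r
    by_cases c5 : 5 * t ≤ 2
    · have hs : sp Δ X t = Δ.σ (dist Δ.p (Δ.π X)) := by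
        unfold sp; rw [cl_zero (i := 2) (by linarith), mul_zero, add_zero]; rfl
      rw [hs] at hq₀
      have := Δ.near X (ne_of_rh c4) q₀ hq₀
      linarith [ha_nonneg hD0 t]
    · have : ha D t = D := by unfold ha; rw [cl_one (i := 1) (by linarith), mul_one]
      rw [this]
      linarith [hD (Δ.π X) (Δ.y X q₀)]
  · change dist Δ.p (Δ.y X q₀) ≤ hb D Δ.r (rh Δ X) t + Δ.r
    have := Δ.dist_p X q₀ (ne_of_rh c4)
    linarith [hb_nonneg hD0 Δ.r (rh Δ X) t]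
  · change dist (Δ.y X q) (Δ.y X q₀) ≤
      max (hw D Δ.r (rh Δ X) t) (K * (mx Δ X (sp Δ X t) - Δ.F X (sp Δ X t) q)) + Δ.r
    have h3 := (hK X c4).2 (sp Δ X t) (sp_mem Δ X t) q₀ q hq₀
    rw [mx_eq hq₀]
    have h4 := le_max_right (hw D Δ.r (rh Δ X) t)
      (K * (Δ.F X (sp Δ X t) q₀ - Δ.F X (sp Δ X t) q))
    linarith

/-- invariance -/
lemma inv_pt (Δ : Dat M S Q) (D K : ℝ) {X X' : S} (h : Δ.π X = Δ.π X') (t : ℝ) :
    (∀ j, ∃ j', atm Δ X j = atm Δ X' j' ∧ hgt Δ D K X t j = hgt Δ D K X' t j') ∧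
    (∀ j, ∃ j', atm Δ X' j = atm Δ X j' ∧ hgt Δ D K X' t j = hgt Δ D K X t j') := by
  have hρ : rh Δ X = rh Δ X' := by unfold rh; rw [h]
  have hs : sp Δ X t = sp Δ X' t := by unfold sp; rw [hρ]
  have hm : ∀ s, mx Δ X s = mx Δ X' s := by
    intro s
    have : Set.range (Δ.F X s) = Set.range (Δ.F X' s) := by
      ext v
      constructor
      · rintro ⟨q, rfl⟩
        obtain ⟨q', -, h2⟩ := Δ.inv X X' h q
        exact ⟨q', (h2 s).symm⟩
      · rintro ⟨q, rfl⟩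
        obtain ⟨q', -, h2⟩ := Δ.inv X' X h.symm q
        exact ⟨q', (h2 s).symm⟩
    unfold mx iSup
    rw [this]
  have key : ∀ Y Y' : S, Δ.π Y = Δ.π Y' → rh Δ Y = rh Δ Y' → sp Δ Y t = sp Δ Y' t →
      (∀ s, mx Δ Y s = mx Δ Y' s) →
      ∀ j, ∃ j', atm Δ Y j = atm Δ Y' j' ∧ hgt Δ D K Y t j = hgt Δ D K Y' t j' := by
    intro Y Y' e1 e2 e3 e4 j
    rcases j with _ | _ | q
    · exact ⟨none, e1, rfl⟩
    · refine ⟨some none, rfl, ?_⟩
      change hb D Δ.r (rh Δ Y) t = hb D Δ.r (rh Δ Y') t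
      rw [e2]
    · obtain ⟨q', h1, h2⟩ := Δ.inv Y Y' e1 q
      refine ⟨some (some q'), h1, ?_⟩
      change max (hw D Δ.r (rh Δ Y) t) (K * (mx Δ Y (sp Δ Y t) - Δ.F Y (sp Δ Y t) q)) =
        max (hw D Δ.r (rh Δ Y') t) (K * (mx Δ Y' (sp Δ Y' t) - Δ.F Y' (sp Δ Y' t) q'))
      rw [e2, e3, e4, h2]
  exact ⟨key X X' h hρ hs hm, key X' X h.symm hρ.symm hs.symm fun s => (hm s).symm⟩

/-- the value at the beginning -/
lemma start_pt (Δ : Dat M S Q) {D : ℝ} (hD : ∀ x y : M, dist x y ≤ D) (K : ℝ)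
    (X : S) : hgt Δ D K X 0 none = 0 ∧
      ∀ j, dist (atm Δ X j) (atm Δ X none) ≤ hgt Δ D K X 0 j + 0 := by
  have hD0 : 0 ≤ D := dist_nonneg.trans (hD Δ.p Δ.p)
  refine ⟨?_, ?_⟩
  · change ha D 0 = 0
    unfold ha; rw [cl_zero (by norm_num), mul_zero]
  · intro j
    rcases j with _ | _ | q
    · change dist (Δ.π X) (Δ.π X) ≤ ha D 0 + 0
      rw [dist_self]
      linarith [ha_nonneg hD0 0]
    · change dist Δ.p (Δ.π X) ≤ hb D Δ.r (rh Δ X) 0 + 0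
      unfold hb
      rw [cl_zero (i := 0) (by norm_num)]
      have := hD Δ.p (Δ.π X)
      linarith
    · change dist (Δ.y X q) (Δ.π X) ≤
        max (hw D Δ.r (rh Δ X) 0) (K * (mx Δ X (sp Δ X 0) - Δ.F X (sp Δ X 0) q)) + 0
      have h1 : hw D Δ.r (rh Δ X) 0 = D := by
        unfold hw; rw [cl_zero (i := 0) (by norm_num)]; ring
      rw [h1, add_zero]
      exact le_max_of_le_left (hD _ _)

/-- the value at the end -/
lemma end_pt (Δ : Dat M S Q) {D : ℝ} (hD : ∀ x y : M, dist x y ≤ D) (K : ℝ)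
    (X : S) : hgt Δ D K X 1 (some none) = 0 ∧
      ∀ j, dist (atm Δ X j) (atm Δ X (some none)) ≤ hgt Δ D K X 1 j + 0 := by
  have hD0 : 0 ≤ D := dist_nonneg.trans (hD Δ.p Δ.p)
  refine ⟨?_, ?_⟩
  · change hb D Δ.r (rh Δ X) 1 = 0
    unfold hb; rw [cl_one (i := 0) (by norm_num), cl_one (i := 3) (by norm_num)]; ring
  · intro j
    rcases j with _ | _ | q
    · change dist (Δ.π X) Δ.p ≤ ha D 1 + 0
      unfold ha
      rw [cl_one (i := 1) (by norm_num)]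
      have := hD (Δ.π X) Δ.p
      linarith
    · change dist Δ.p Δ.p ≤ hb D Δ.r (rh Δ X) 1 + 0
      rw [dist_self]
      linarith [hb_nonneg hD0 Δ.r (rh Δ X) 1]
    · change dist (Δ.y X q) Δ.p ≤
        max (hw D Δ.r (rh Δ X) 1) (K * (mx Δ X (sp Δ X 1) - Δ.F X (sp Δ X 1) q)) + 0
      have h1 : hw D Δ.r (rh Δ X) 1 = D := by
        unfold hw; rw [cl_one (i := 0) (by norm_num), cl_one (i := 4) (by norm_num)]; ring
      rw [h1, add_zero]
      exact le_max_of_le_left (hD _ _)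

/-- continuity -/
lemma cont_pt [CompactSpace Q] [Nonempty Q] (Δ : Dat M S Q) {D : ℝ}
    (hD : ∀ x y : M, dist x y ≤ D) {K : ℝ} (hK0 : 0 ≤ K) (X : S) (t : ℝ) {δ : ℝ} (hδ : 0 < δ) :
    ∀ᶠ Z : S × ℝ in 𝓝 (X, t), ∀ j, dist (atm Δ Z.1 j) (atm Δ X j) +
        |hgt Δ D K Z.1 Z.2 j - hgt Δ D K X t j| ≤ δ ∨
        (D ≤ hgt Δ D K Z.1 Z.2 j ∧ D ≤ hgt Δ D K X t j) := by
  have hr := Δ.r_pos
  have hD0 : 0 ≤ D := dist_nonneg.trans (hD Δ.p Δ.p)
  have cρ : Continuous fun Z : S × ℝ => rh Δ Z.1 := (continuous_rh Δ).comp continuous_fst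
  have ccl : ∀ i, Continuous fun Z : S × ℝ => cl i Z.2 :=
    fun i => (continuous_cl i).comp continuous_snd
  have cta : Continuous fun Z : S × ℝ => ta Δ.r (rh Δ Z.1) := (continuous_ta _).comp cρ
  have ca : Continuous fun Z : S × ℝ => ha D Z.2 := by
    have := ccl 1
    unfold ha; fun_prop
  have cb : Continuous fun Z : S × ℝ => hb D Δ.r (rh Δ Z.1) Z.2 := by
    have h0 := ccl 0
    have h3 := ccl 3
    unfold hb; fun_prop
  have cw : Continuous fun Z : S × ℝ => hw D Δ.r (rh Δ Z.1) Z.2 := by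
    have h0 := ccl 0
    have h4 := ccl 4
    unfold hw; fun_prop
  have cπ : Continuous fun Z : S × ℝ => Δ.π Z.1 := Δ.hπ.comp continuous_fst
  have E1 : ∀ᶠ Z : S × ℝ in 𝓝 (X, t), dist (Δ.π Z.1) (Δ.π X) + |ha D Z.2 - ha D t| < δ := by
    have h : Continuous fun Z : S × ℝ => dist (Δ.π Z.1) (Δ.π X) + |ha D Z.2 - ha D t| := by
      fun_prop
    refine h.continuousAt.eventually_lt_const ?_
    change dist (Δ.π X) (Δ.π X) + |ha D t - ha D t| < δ
    rw [dist_self, sub_self, abs_zero, add_zero]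
    exact hδ
  have E2 : ∀ᶠ Z : S × ℝ in 𝓝 (X, t),
      |hb D Δ.r (rh Δ Z.1) Z.2 - hb D Δ.r (rh Δ X) t| < δ := by
    have h : Continuous fun Z : S × ℝ =>
        |hb D Δ.r (rh Δ Z.1) Z.2 - hb D Δ.r (rh Δ X) t| := by fun_prop
    refine h.continuousAt.eventually_lt_const ?_
    change |hb D Δ.r (rh Δ X) t - hb D Δ.r (rh Δ X) t| < δ
    rw [sub_self, abs_zero]
    exact hδ
  have main : ∀ Z : S × ℝ, dist (Δ.π Z.1) (Δ.π X) + |ha D Z.2 - ha D t| < δ →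
      |hb D Δ.r (rh Δ Z.1) Z.2 - hb D Δ.r (rh Δ X) t| < δ →
      (∀ q, dist (Δ.y Z.1 q) (Δ.y X q) +
          |hgt Δ D K Z.1 Z.2 (some (some q)) - hgt Δ D K X t (some (some q))| ≤ δ ∨
        (D ≤ hgt Δ D K Z.1 Z.2 (some (some q)) ∧ D ≤ hgt Δ D K X t (some (some q)))) →
      ∀ j, dist (atm Δ Z.1 j) (atm Δ X j) +
        |hgt Δ D K Z.1 Z.2 j - hgt Δ D K X t j| ≤ δ ∨
        (D ≤ hgt Δ D K Z.1 Z.2 j ∧ D ≤ hgt Δ D K X t j) := by
    intro Z h1 h2 h3 j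
    rcases j with _ | _ | q
    · exact Or.inl h1.le
    · refine Or.inl ?_
      change dist Δ.p Δ.p + |hb D Δ.r (rh Δ Z.1) Z.2 - hb D Δ.r (rh Δ X) t| ≤ δ
      rw [dist_self, zero_add]
      exact h2.le
    · exact h3 q
  by_cases c : rh Δ X < Δ.r / 4
  · have E3 : ∀ᶠ Z : S × ℝ in 𝓝 (X, t), rh Δ Z.1 < Δ.r / 4 :=
      cρ.continuousAt.eventually_lt_const c
    filter_upwards [E1, E2, E3] with Z h1 h2 h3
    refine main Z h1 h2 fun q => Or.inr ⟨le_max_of_le_left ?_, le_max_of_le_left ?_⟩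
    · unfold hw; rw [ta_zero hr h3.le]
      linarith
    · unfold hw; rw [ta_zero hr c.le]
      linarith
  · have hX : Δ.π X ≠ Δ.p := ne_of_rh (le_of_not_gt c)
    set η : ℝ := min (δ / 4) (δ / (4 * (K + 1))) with hη
    have hη0 : 0 < η := lt_min (by positivity) (by positivity)
    have E3 := unif Δ hX t hη0
    have E4 : ∀ᶠ Z : S × ℝ in 𝓝 (X, t),
        |hw D Δ.r (rh Δ Z.1) Z.2 - hw D Δ.r (rh Δ X) t| < δ / 4 := by
      have h : Continuous fun Z : S × ℝ =>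
          |hw D Δ.r (rh Δ Z.1) Z.2 - hw D Δ.r (rh Δ X) t| := by fun_prop
      refine h.continuousAt.eventually_lt_const ?_
      change |hw D Δ.r (rh Δ X) t - hw D Δ.r (rh Δ X) t| < δ / 4
      rw [sub_self, abs_zero]
      positivity
    have E5 : ∀ᶠ Z : S × ℝ in 𝓝 (X, t), Δ.π Z.1 ≠ Δ.p :=
      ((isOpen_nep Δ).preimage continuous_fst).mem_nhds hX
    filter_upwards [E1, E2, E3, E4, E5] with Z h1 h2 h3 h4 h5
    refine main Z h1 h2 fun q => Or.inl ?_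
    obtain ⟨q₁, hq₁⟩ := exists_mx Δ h5 (sp Δ Z.1 Z.2)
    obtain ⟨q₂, hq₂⟩ := exists_mx Δ hX (sp Δ X t)
    have hm : |mx Δ Z.1 (sp Δ Z.1 Z.2) - mx Δ X (sp Δ X t)| ≤ η := by
      rw [mx_eq hq₁, mx_eq hq₂, abs_le]
      have a1 := hq₁ q₂
      have a2 := hq₂ q₁
      have a3 := abs_le.1 (h3 q₁).2
      have a4 := abs_le.1 (h3 q₂).2
      constructor <;> linarith
    change dist (Δ.y Z.1 q) (Δ.y X q) +
      |max (hw D Δ.r (rh Δ Z.1) Z.2)
          (K * (mx Δ Z.1 (sp Δ Z.1 Z.2) - Δ.F Z.1 (sp Δ Z.1 Z.2) q)) -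
        max (hw D Δ.r (rh Δ X) t) (K * (mx Δ X (sp Δ X t) - Δ.F X (sp Δ X t) q))| ≤ δ
    have b1 := abs_max_sub_le (hw D Δ.r (rh Δ Z.1) Z.2)
      (K * (mx Δ Z.1 (sp Δ Z.1 Z.2) - Δ.F Z.1 (sp Δ Z.1 Z.2) q)) (hw D Δ.r (rh Δ X) t)
      (K * (mx Δ X (sp Δ X t) - Δ.F X (sp Δ X t) q))
    have b2 : |K * (mx Δ Z.1 (sp Δ Z.1 Z.2) - Δ.F Z.1 (sp Δ Z.1 Z.2) q) -
        K * (mx Δ X (sp Δ X t) - Δ.F X (sp Δ X t) q)| ≤ K * (2 * η) := by
      rw [← mul_sub, abs_mul, abs_of_nonneg hK0]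
      refine mul_le_mul_of_nonneg_left ?_ hK0
      have a3 := abs_le.1 (h3 q).2
      have a4 := abs_le.1 hm
      rw [abs_le]
      constructor <;> linarith
    have b3 : K * (2 * η) ≤ δ / 2 := by
      have a1 : η ≤ δ / (4 * (K + 1)) := min_le_right _ _
      have a2 : K * (2 * η) ≤ (K + 1) * (2 * (δ / (4 * (K + 1)))) := by
        have : 0 ≤ δ / (4 * (K + 1)) := by positivity
        nlinarith
      have a3 : (K + 1) * (2 * (δ / (4 * (K + 1)))) = δ / 2 := by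
        field_simp
        ring
      linarith
    have b4 : η ≤ δ / 4 := min_le_left _ _
    have b5 := (h3 q).1
    linarith

variable {M' B : Type} [MetricSpace M'] [TopologicalSpace B]

/-- the family of functions -/
def TF (Δ : Dat M S Q) (ι : B → M → M') (D K : ℝ) (b : B) (X : S) (t : ℝ) : M' → ℝ :=
  th (fun j => ι b (atm Δ X j)) (hgt Δ D K X t)

section

variable (Δ : Dat M S Q) {ι : B → M → M'} (hι : ∀ b, Isometry (ι b)) {D : ℝ}
  (hD : ∀ x y : M', dist x y ≤ D)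

include hι hD

lemma hD' (b : B) : ∀ x y : M, dist x y ≤ D := fun x y => by
  rw [← (hι b).dist_eq]
  exact hD _ _

lemma mem_fam (hTH : T_TH) [CompactSpace Q] [Nonempty Q] {K : ℝ} (hK : QC Δ K) (b : B) (X : S)
    (t : ℝ) : ∃ m, ∀ z, |TF Δ ι D K b X t z - dist m z| ≤ Δ.r / 2 := by
  have h0 : 0 ≤ D := dist_nonneg.trans (hD (ι b Δ.p) (ι b Δ.p))
  obtain ⟨j₀, hj, h⟩ := mem_pt Δ (hD' hι hD b) hK X t
  refine ⟨_, hTH.2.1 M' (Option (Option Q)) D Δ.r (fun j => ι b (atm Δ X j)) (hgt Δ D K X t) j₀ hD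
    Δ.r_pos.le (hgt_nonneg Δ h0 K X t) hj ?_⟩
  intro j
  rw [(hι b).dist_eq]
  exact h j

lemma start_fam (hTH : T_TH) (K : ℝ) (b : B) (X : S) (z : M') :
    TF Δ ι D K b X 0 z = dist (ι b (Δ.π X)) z := by
  have h0 : 0 ≤ D := dist_nonneg.trans (hD (ι b Δ.p) (ι b Δ.p))
  obtain ⟨hj, h⟩ := start_pt Δ (hD' hι hD b) K X
  have h := hTH.2.1 M' (Option (Option Q)) D 0 (fun j => ι b (atm Δ X j)) (hgt Δ D K X 0) none hD
    le_rfl (hgt_nonneg Δ h0 K X 0) hj (by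
      intro j
      rw [(hι b).dist_eq]
      exact h j) z
  rw [zero_div] at h
  exact sub_eq_zero.1 (abs_eq_zero.1 (le_antisymm h (abs_nonneg _)))

lemma end_fam (hTH : T_TH) (K : ℝ) (b : B) (X : S) (z : M') :
    TF Δ ι D K b X 1 z = dist (ι b Δ.p) z := by
  have h0 : 0 ≤ D := dist_nonneg.trans (hD (ι b Δ.p) (ι b Δ.p))
  obtain ⟨hj, h⟩ := end_pt Δ (hD' hι hD b) K X
  have h := hTH.2.1 M' (Option (Option Q)) D 0 (fun j => ι b (atm Δ X j)) (hgt Δ D K X 1)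
    (some none) hD le_rfl (hgt_nonneg Δ h0 K X 1) hj (by
      intro j
      rw [(hι b).dist_eq]
      exact h j) z
  rw [zero_div] at h
  exact sub_eq_zero.1 (abs_eq_zero.1 (le_antisymm h (abs_nonneg _)))

lemma cont_fam (hTH : T_TH) [CompactSpace M] [CompactSpace Q] [Nonempty Q]
    (hc : Continuous fun p : B × M => ι p.1 p.2) {K : ℝ} (hK0 : 0 ≤ K) (b : B) (X : S) (t : ℝ)
    {δ : ℝ} (hδ : 0 < δ) :
    ∀ᶠ Z : (B × S) × ℝ in 𝓝 ((b, X), t), ∀ z,
      |TF Δ ι D K Z.1.1 Z.1.2 Z.2 z - TF Δ ι D K b X t z| ≤ δ := by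
  have h0 : 0 ≤ D := dist_nonneg.trans (hD (ι b Δ.p) (ι b Δ.p))
  have E1 : ∀ᶠ b' in 𝓝 b, ∀ x : M, dist (ι b' x) (ι b x) ≤ δ / 2 := by
    have key := isCompact_univ.eventually_forall_of_forall_eventually (x₀ := b)
      (K := (Set.univ : Set M)) (P := fun (b' : B) (x : M) => dist (ι b' x) (ι b x) ≤ δ / 2) ?_
    · exact key.mono fun Z hZ q => hZ q (Set.mem_univ q)
    intro x _
    have h1 : Continuous fun z : B × M => dist (ι z.1 z.2) (ι b z.2) :=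
      hc.dist (hc.comp (continuous_const.prodMk continuous_snd))
    have h2 : (fun z : B × M => dist (ι z.1 z.2) (ι b z.2)) (b, x) < δ / 2 := by
      change dist (ι b x) (ι b x) < δ / 2
      rw [dist_self]; positivity
    exact (h1.continuousAt.eventually_lt_const h2).mono fun z hz => hz.le
  have E1' : ∀ᶠ Z : (B × S) × ℝ in 𝓝 ((b, X), t), ∀ x : M,
      dist (ι Z.1.1 x) (ι b x) ≤ δ / 2 := by
    have h3 : Tendsto (fun Z : (B × S) × ℝ => Z.1.1) (𝓝 ((b, X), t)) (𝓝 b) := by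
      have h4 : Continuous (fun Z : (B × S) × ℝ => Z.1.1) := by fun_prop
      exact h4.tendsto ((b, X), t)
    exact h3.eventually E1
  have E2 := cont_pt Δ (hD' hι hD b) hK0 X t (half_pos hδ)
  have E2' : ∀ᶠ Z : (B × S) × ℝ in 𝓝 ((b, X), t),
      ∀ j, dist (atm Δ Z.1.2 j) (atm Δ X j) +
        |hgt Δ D K Z.1.2 Z.2 j - hgt Δ D K X t j| ≤ δ / 2 ∨
        (D ≤ hgt Δ D K Z.1.2 Z.2 j ∧ D ≤ hgt Δ D K X t j) := by
    have h3 : Tendsto (fun Z : (B × S) × ℝ => ((Z.1.2, Z.2) : S × ℝ)) (𝓝 ((b, X), t))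
        (𝓝 (X, t)) := by
      have h4 : Continuous (fun Z : (B × S) × ℝ => ((Z.1.2, Z.2) : S × ℝ)) := by fun_prop
      exact h4.tendsto ((b, X), t)
    exact h3.eventually E2
  filter_upwards [E1', E2'] with Z h1 h2
  obtain ⟨j₀, hj₀⟩ := exists_zero Δ D K Z.1.2 Z.2
  obtain ⟨j₁, hj₁⟩ := exists_zero Δ D K X t
  refine hTH.1 M' (Option (Option Q)) D δ (fun j => ι Z.1.1 (atm Δ Z.1.2 j))
    (fun j => ι b (atm Δ X j)) (hgt Δ D K Z.1.2 Z.2)
    (hgt Δ D K X t) j₀ j₁ hD hδ.le (hgt_nonneg Δ h0 K _ _) (hgt_nonneg Δ h0 K _ _) hj₀ hj₁ ?_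
  intro j
  rcases h2 j with h | h
  · refine Or.inl ?_
    have h3 := dist_triangle (ι Z.1.1 (atm Δ Z.1.2 j)) (ι Z.1.1 (atm Δ X j)) (ι b (atm Δ X j))
    rw [(hι Z.1.1).dist_eq] at h3
    have h4 := h1 (atm Δ X j)
    linarith
  · exact Or.inr h

end

lemma inv_fam (hTH : T_TH) (Δ : Dat M S Q) (ι : B → M → M') (D K : ℝ) (b : B) {X X' : S}
    (h : Δ.π X = Δ.π X') (t : ℝ) : TF Δ ι D K b X t = TF Δ ι D K b X' t := by
  obtain ⟨h1, h2⟩ := inv_pt Δ D K h t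
  refine hTH.2.2 _ _ _ _ _ _ _ ?_ ?_
  · intro j
    obtain ⟨j', e1, e2⟩ := h1 j
    exact ⟨j', by rw [e1], e2⟩
  · intro j
    obtain ⟨j', e1, e2⟩ := h2 j
    exact ⟨j', by rw [e1], e2⟩

end FAM

open FAM

theorem fam_aux (hTH : T_TH) (hCP : T_CP) : T_FAM := by
  intro M M' B S Q _ _ _ _ _ _ _ _ _ _ _ _ Δ ι hc hι ε hε ha g₀ g₁ hg₀ hg₁
  have hr := Δ.r_pos
  have hD : ∀ x y : M, dist x y ≤ Metric.diam (Set.univ : Set M) := fun x y =>
    Metric.dist_le_diam_of_mem (Bornology.IsBounded.all _) (Set.mem_univ _) (Set.mem_univ _)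
  obtain ⟨K, hK0, hK⟩ := hCP M' S Q Δ (Δ.r / 4) (by positivity)
  obtain ⟨Θ, hΘ⟩ : ∃ Θ : B × S → ℝ → M → ℝ, Θ = fun W t =>
    TF Δ ι (Metric.diam (Set.univ : Set M)) K W.1 W.2 t := ⟨_, rfl⟩
  have h0 : ∀ b X z, Θ (b, X) 0 z = dist (ι b (Δ.π X)) z := by
    intro b X z
    rw [hΘ]
    exact start_fam Δ hι hD hTH K b X z
  have h1 : ∀ b X z, Θ (b, X) 1 z = dist (ι b Δ.p) z := by
    intro b X z
    rw [hΘ]
    exact end_fam Δ hι hD hTH K b X z
  have hinv : ∀ b X X' t, Δ.π X = Δ.π X' → Θ (b, X) t = Θ (b, X') t := by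
    intro b X X' t h
    rw [hΘ]
    exact inv_fam hTH Δ ι _ K b h t
  have hb : ∀ (W : B × S) (t : ℝ), ∃ m, ∀ z, |Θ W t z - dist m z| ≤ Δ.r / 2 := by
    intro W t
    rw [hΘ]
    exact mem_fam Δ hι hD hTH hK W.1 W.2 t
  have hcc : ∀ (W : B × S) (t : ℝ), ∀ δ > 0, ∀ᶠ Z : (B × S) × ℝ in 𝓝 (W, t), ∀ z,
      |Θ Z.1 Z.2 z - Θ W t z| ≤ δ := by
    intro W t δ hδ
    rw [hΘ]
    exact cont_fam Δ hι hD hTH hc hK0 W.1 W.2 t hδ
  have hmem : ∀ (X : B × S) (t : unitInterval), Memℓp (fun z : M => Θ X (t : ℝ) z) ∞ := by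
    intro X t
    obtain ⟨m, hm⟩ := hb X t
    refine memℓp_infty ⟨Δ.r / 2 + Metric.diam (Set.univ : Set M), ?_⟩
    rintro _ ⟨z, rfl⟩
    change ‖Θ X (t : ℝ) z‖ ≤ _
    rw [Real.norm_eq_abs]
    have h2 : dist m z ≤ Metric.diam (Set.univ : Set M) := hD _ _
    have h3 := hm z
    have h4 : (0 : ℝ) ≤ dist m z := dist_nonneg
    rw [abs_le] at h3 ⊢
    constructor <;> linarith [h3.1, h3.2]
  let Ψ : (B × S) × unitInterval → lp (fun _ : M => ℝ) ∞ :=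
    fun W => ⟨fun z => Θ W.1 (W.2 : ℝ) z, hmem W.1 W.2⟩
  have hΨn : ∀ W, Ψ W ∈ nbhd M ε := by
    intro W
    obtain ⟨m, hm⟩ := hb W.1 W.2
    rw [nbhd, Metric.mem_thickening_iff]
    refine ⟨kur M m, ⟨m, rfl⟩, ?_⟩
    refine lt_of_le_of_lt ?_ ha
    rw [dist_eq_norm]
    refine lp.norm_le_of_forall_le (by positivity) fun z => ?_
    rw [lp.coeFn_sub, Pi.sub_apply, kur_apply, Real.norm_eq_abs]
    exact hm z
  have hΨc : Continuous Ψ := by
    rw [continuous_iff_continuousAt]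
    rintro ⟨X, t⟩
    rw [ContinuousAt, Metric.tendsto_nhds]
    intro δ hδ
    have h2 := hcc X t (δ / 2) (by linarith)
    have h3 : Tendsto (fun W : (B × S) × unitInterval => ((W.1, (W.2 : ℝ)) : (B × S) × ℝ))
        (𝓝 (X, t)) (𝓝 (X, (t : ℝ))) := by
      have h4 : Continuous (fun W : (B × S) × unitInterval =>
          ((W.1, (W.2 : ℝ)) : (B × S) × ℝ)) := by
        fun_prop
      exact h4.tendsto (X, t)
    filter_upwards [h3.eventually h2] with W hW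
    refine lt_of_le_of_lt ?_ (by linarith : δ / 2 < δ)
    rw [dist_eq_norm]
    refine lp.norm_le_of_forall_le (by linarith) fun z => ?_
    rw [lp.coeFn_sub, Pi.sub_apply, Real.norm_eq_abs]
    exact hW z
  let H : (B × S) × unitInterval → UE M ε := fun W => (⟨Ψ W, hΨn W⟩ : nbhd M ε)
  have hHc : Continuous H := hΨc.subtype_mk _
  let H' : (B × M') × unitInterval → UE M ε :=
    fun W => H ((W.1.1, Function.surjInv Δ.surj W.1.2), W.2)
  have hq : IsQuotientMap (Prod.map (Prod.map (id : B → B) Δ.π)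
      (id : unitInterval → unitInterval)) := by
    have hcont : Continuous (Prod.map (Prod.map (id : B → B) Δ.π)
        (id : unitInterval → unitInterval)) :=
      (continuous_id.prodMap Δ.hπ).prodMap continuous_id
    exact (Continuous.isClosedMap hcont).isQuotientMap hcont
      ((Function.surjective_id.prodMap Δ.surj).prodMap Function.surjective_id)
  have hcomp : H' ∘ (Prod.map (Prod.map (id : B → B) Δ.π)
      (id : unitInterval → unitInterval)) = H := by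
    funext W
    obtain ⟨⟨b, X⟩, t⟩ := W
    apply Subtype.ext
    apply Subtype.ext
    funext z
    change Θ (b, Function.surjInv Δ.surj (Δ.π X)) (t : ℝ) z = Θ (b, X) (t : ℝ) z
    rw [hinv b (Function.surjInv Δ.surj (Δ.π X)) X t (Function.surjInv_eq Δ.surj _)]
  have hH'c : Continuous H' := by
    rw [hq.continuous_iff, hcomp]
    exact hHc
  refine ⟨⟨⟨fun W => H' (W.2, W.1), ?_⟩, ?_, ?_⟩⟩
  · exact hH'c.comp continuous_swap
  · rintro ⟨b, m⟩
    rw [hg₀]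
    apply Subtype.ext
    apply Subtype.ext
    funext z
    change Θ (b, Function.surjInv Δ.surj m) ((0 : unitInterval) : ℝ) z = dist (ι b m) z
    rw [Set.Icc.coe_zero, h0, Function.surjInv_eq Δ.surj]
  · rintro ⟨b, m⟩
    rw [hg₁]
    apply Subtype.ext
    apply Subtype.ext
    funext z
    change Θ (b, Function.surjInv Δ.surj m) ((1 : unitInterval) : ℝ) z = dist (ι b Δ.p) z
    rw [Set.Icc.coe_one, h1]

theorem pf_FAM : T_FAM := fam_aux Pool.Agent.H33.FR.pf_TH Pool.Agent.H48.FRCP.cp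

end

end Pool.Agent.H74.FL
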